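import Pool.Agent.Helper3.CK.Stm
import Pool.Graph.R_seed8.W681.RC.PTB

/-!
# CK, module TGEN: property (T) of a group generated by two Kazhdan subgroups
-/

set_option autoImplicit false

namespace Pool.Agent.Helper8.CK

open Pool.Agent.W661.RC (HasT)
open Pool.Agent.W681.RC

variable {H : Type} [NormedAddCommGroup H] [InnerProductSpace ℂ H] [CompleteSpace H]

/-- A unitary representation of a Kazhdan group: almost invariant vectors are near to invariant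
vectors. -/
theorem near_inv {K : Type} [Group K] (hK : HasT K) (π : K →* unitary (H →L[ℂ] H)) {η : ℝ}
    (hη : 0 < η) : ∃ (F : Finset K) (ε : ℝ), 0 < ε ∧
      ∀ v : H, (∀ g ∈ F, ‖(π g : H →L[ℂ] H) v - v‖ < ε) → ∃ p ∈ inv π, v - p ∈ (inv π)ᗮ ∧
        ‖v - p‖ ≤ η := by
  have hcomp : CompleteSpace (inv π) := (closed_inv π).completeSpace_coe
  have hcomp' : CompleteSpace ((inv π)ᗮ : Submodule ℂ H) :=
    (Submodule.isClosed_orthogonal (inv π)).completeSpace_coe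
  set W : Submodule ℂ H := (inv π)ᗮ with hWdef
  have hW : ∀ w : K, ∀ v ∈ W, (π w : H →L[ℂ] H) v ∈ W := fun w v hv => stab_perp π w v hv
  have key : ∃ (F : Finset K) (ε : ℝ), 0 < ε ∧
      ∀ v : W, ‖v‖ = 1 → ∃ g ∈ F, ε ≤ ‖(res π W hW g : W →L[ℂ] W) v - v‖ := by
    by_contra hcon
    push Not at hcon
    obtain ⟨v, hv0, hv⟩ := hK W (res π W hW) fun F ε hε => by
      obtain ⟨v, hv1, hv2⟩ := hcon F ε hε
      exact ⟨v, hv1, hv2⟩
    have h1 : (v : H) ∈ inv π := fun w => by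
      rw [← res_apply π W hW w v, hv w]
    have h2 : inner ℂ (v : H) (v : H) = 0 := (Submodule.mem_orthogonal _ _).1 v.2 v h1
    exact hv0 (Subtype.ext (inner_self_eq_zero.1 h2))
  obtain ⟨F, ε, hε, hF⟩ := key
  refine ⟨F, ε * η, mul_pos hε hη, fun v hv => ?_⟩
  obtain ⟨p, hp, q, hq, hpq⟩ := (inv π).exists_add_mem_mem_orthogonal v
  have hq' : v - p = q := by rw [hpq]; abel
  refine ⟨p, hp, by rw [hq']; exact hq, ?_⟩
  rw [hq']
  by_contra hlt
  rw [not_le] at hlt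
  have hqpos : 0 < ‖q‖ := hη.trans hlt
  set w : W := ⟨(((‖q‖⁻¹ : ℝ) : ℂ)) • q, W.smul_mem _ hq⟩ with hw
  have hw1 : ‖w‖ = 1 := by
    change ‖(((‖q‖⁻¹ : ℝ) : ℂ)) • q‖ = 1
    rw [norm_smul, Complex.norm_real, Real.norm_eq_abs, abs_of_pos (inv_pos.2 hqpos)]
    field_simp
  obtain ⟨g, hg, hge⟩ := hF w hw1
  have e1 : ‖(res π W hW g : W →L[ℂ] W) w - w‖ = ‖q‖⁻¹ * ‖(π g : H →L[ℂ] H) v - v‖ := by
    change ‖(((res π W hW g : W →L[ℂ] W) w : W) : H) - (w : H)‖ = _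
    rw [res_apply]
    change ‖(π g : H →L[ℂ] H) ((((‖q‖⁻¹ : ℝ) : ℂ)) • q) - (((‖q‖⁻¹ : ℝ) : ℂ)) • q‖ = _
    rw [map_smul, ← smul_sub, norm_smul, Complex.norm_real, Real.norm_eq_abs,
      abs_of_pos (inv_pos.2 hqpos)]
    congr 2
    rw [hpq, map_add, hp g]
    abel
  rw [e1] at hge
  have h3 : ‖(π g : H →L[ℂ] H) v - v‖ < ε * η := hv g hg
  have h4 : ε * ‖q‖ ≤ ‖(π g : H →L[ℂ] H) v - v‖ := by
    have := mul_le_mul_of_nonneg_right hge hqpos.le
    calc ε * ‖q‖ ≤ ‖q‖⁻¹ * ‖(π g : H →L[ℂ] H) v - v‖ * ‖q‖ := this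
      _ = ‖(π g : H →L[ℂ] H) v - v‖ := by field_simp
  have h5 : ε * η < ε * ‖q‖ := mul_lt_mul_of_pos_left hlt hε
  linarith

theorem s_tgen : Pool.Agent.Helper3.CK.S_TGEN := by
  intro G _ K D hK hD hKD hgen H _ _ _ π hπ
  classical
  set πK : K →* unitary (H →L[ℂ] H) := π.comp K.subtype with hπK
  set πD : D →* unitary (H →L[ℂ] H) := π.comp D.subtype with hπD
  obtain ⟨FK, εK, hεK, hFK⟩ := near_inv hK πK (η := 1 / 4) (by norm_num)
  obtain ⟨FD, εD, hεD, hFD⟩ := near_inv hD πD (η := 1 / 4) (by norm_num)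
  obtain ⟨v, hv1, hv⟩ := hπ (FK.image K.subtype ∪ FD.image D.subtype) (min εK εD)
    (lt_min hεK hεD)
  obtain ⟨p, hp, hpo, hpn⟩ := hFK v fun g hg => (hv (K.subtype g) (Finset.mem_union_left _
    (Finset.mem_image_of_mem _ hg))).trans_le (min_le_left _ _)
  obtain ⟨ξ, hξ, hξo, hξn⟩ := hFD v fun g hg => (hv (D.subtype g) (Finset.mem_union_right _
    (Finset.mem_image_of_mem _ hg))).trans_le (min_le_right _ _)
  have hcomp : CompleteSpace (inv πK) := (closed_inv πK).completeSpace_coe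
  obtain ⟨r, hr, s, hs, hrs⟩ := (inv πK).exists_add_mem_mem_orthogonal ξ
  -- the projection of `ξ` is not zero
  have hr0 : r ≠ 0 := by
    intro h0
    -- then `ξ` is orthogonal to the invariant vector `p`
    have h1 : inner ℂ p ξ = 0 := by
      rw [hrs, h0, zero_add]
      exact (Submodule.mem_orthogonal _ _).1 hs p hp
    have h2 : ‖p - ξ‖ ≤ 1 / 2 := by
      calc ‖p - ξ‖ = ‖(v - ξ) - (v - p)‖ := by congr 1; abel
        _ ≤ ‖v - ξ‖ + ‖v - p‖ := norm_sub_le _ _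
        _ ≤ 1 / 4 + 1 / 4 := add_le_add hξn hpn
        _ = 1 / 2 := by norm_num
    have h3 : 3 / 4 ≤ ‖p‖ := by
      have : ‖v‖ ≤ ‖v - p‖ + ‖p‖ := by
        calc ‖v‖ = ‖(v - p) + p‖ := by congr 1; abel
          _ ≤ _ := norm_add_le _ _
      linarith
    have h4 : ‖p - ξ‖ ^ 2 = ‖p‖ ^ 2 + ‖ξ‖ ^ 2 := by
      have := @norm_sub_sq ℂ H _ _ _ p ξ
      rw [this, h1]
      simp
    have h5 : ‖p - ξ‖ ^ 2 ≤ (1 / 2) ^ 2 := pow_le_pow_left₀ (norm_nonneg _) h2 2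
    nlinarith [sq_nonneg ‖ξ‖]
  refine ⟨r, hr0, ?_⟩
  -- the stabiliser of `r`
  let St : Subgroup G :=
    { carrier := {g | (π g : H →L[ℂ] H) r = r}
      one_mem' := one_ap π r
      mul_mem' := by
        intro a b ha hb
        change (π (a * b) : H →L[ℂ] H) r = r
        rw [mul_ap, show (π b : H →L[ℂ] H) r = r from hb, show (π a : H →L[ℂ] H) r = r from ha]
      inv_mem' := by
        intro a ha
        change (π a⁻¹ : H →L[ℂ] H) r = r
        conv_lhs => rw [← show (π a : H →L[ℂ] H) r = r from ha]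
        rw [← mul_ap, inv_mul_cancel, one_ap] }
  have hKS : K ≤ St := fun g hg => hr ⟨g, hg⟩
  have hDS : D ≤ St := by
    refine hgen.trans ((Subgroup.closure_le _).2 ?_)
    rintro g ⟨hgD, hg⟩
    change (π g : H →L[ℂ] H) r = r
    have hgr : (π g : H →L[ℂ] H) r ∈ inv πK := by
      intro x
      change (π (x : G) : H →L[ℂ] H) ((π g : H →L[ℂ] H) r) = (π g : H →L[ℂ] H) r
      rw [← mul_ap, show (x : G) * g = g * (g⁻¹ * x * g) by group, mul_ap]
      congr 1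
      exact hr ⟨_, hg x x.2⟩
    have e1 : inner ℂ ξ ((π g : H →L[ℂ] H) r) = inner ℂ r r := by
      rw [← inner_inv, show (π g⁻¹ : H →L[ℂ] H) ξ = ξ from hξ ⟨g⁻¹, D.inv_mem hgD⟩, hrs,
        inner_add_left]
      have : inner ℂ s r = 0 := (Submodule.mem_orthogonal' _ _).1 hs r hr
      rw [this, add_zero]
    have e2 : inner ℂ ξ ((π g : H →L[ℂ] H) r) = inner ℂ r ((π g : H →L[ℂ] H) r) := by
      rw [hrs, inner_add_left, (Submodule.mem_orthogonal' _ _).1 hs _ hgr, add_zero]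
    have e3 : inner ℂ r ((π g : H →L[ℂ] H) r) = inner ℂ r r := e2.symm.trans e1
    have e4 : ‖r - (π g : H →L[ℂ] H) r‖ ^ 2 = 0 := by
      rw [@norm_sub_sq ℂ H _ _ _ r, e3, norm_ap, inner_self_eq_norm_sq_to_K]
      norm_cast
      ring
    have e5 : r - (π g : H →L[ℂ] H) r = 0 := by
      rwa [sq_eq_zero_iff, norm_eq_zero] at e4
    exact (sub_eq_zero.1 e5).symm
  intro g
  have h1 : (⊤ : Subgroup G) ≤ St := by
    rw [← hKD]
    exact sup_le hKS hDS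
  exact h1 (Subgroup.mem_top g)

end Pool.Agent.Helper8.CK
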