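import Pool.Agent.Helper8.CK.Rf
import Pool.Agent.Helper8.CK.TGen

/-!
# CK, module GRP: the group data
-/

set_option autoImplicit false

namespace Pool.Agent.Helper8.CK

open Pool.Agent.Helper3.CK
open Pool.Agent.W661.RC (HasT)
open Pool.Agent.N44.NS (E3 el)

theorem hasT_surj {G G' : Type} [Group G] [Group G'] (hT : HasT G) (f : G →* G')
    (hf : Function.Surjective f) : HasT G' := by
  classical
  intro H _ _ _ π hπ
  obtain ⟨v, hv0, hv⟩ := hT H (π.comp f) fun K ε hε => by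
    obtain ⟨v, hv1, hv2⟩ := hπ (K.image f) ε hε
    exact ⟨v, hv1, fun g hg => hv2 _ (Finset.mem_image_of_mem _ hg)⟩
  refine ⟨v, hv0, fun g => ?_⟩
  obtain ⟨g', rfl⟩ := hf g
  exact hv g'

noncomputable section

variable (F : Type) {Δ : Type} [Field F] [Group Δ]

/-- the matrix `diag(1, s)` -/
def dgh : Δ →* Matrix (Fin 2) (Fin 2) (MonoidAlgebra F Δ) where
  toFun s := Matrix.diagonal ![1, MonoidAlgebra.of F Δ s]
  map_one' := by
    rw [map_one, ← Matrix.diagonal_one]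
    congr 1
    ext i
    fin_cases i <;> rfl
  map_mul' a b := by
    rw [Matrix.diagonal_mul_diagonal, map_mul]
    congr 1
    ext i
    fin_cases i
    · simp
    · simp

/-- the matrix `diag(1, s) I_3` -/
def dg : Δ →* WW F Δ :=
  ((Matrix.scalar (Fin 3)).toMonoidHom.comp (dgh F)).toHomUnits

theorem dg_val (s : Δ) : (dg F s).val = Matrix.diagonal fun _ => dgh F s := rfl

theorem dg_inv_val (s : Δ) : ((dg F s)⁻¹).val = Matrix.diagonal fun _ => dgh F s⁻¹ := by
  rw [← map_inv]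
  rfl

/-- the conjugation with `diag(1, s)` -/
def cj (s : Δ) : Matrix (Fin 2) (Fin 2) (MonoidAlgebra F Δ) →ₐ[F]
    Matrix (Fin 2) (Fin 2) (MonoidAlgebra F Δ) where
  toFun a := dgh F s⁻¹ * a * dgh F s
  map_one' := by rw [mul_one, ← map_mul, inv_mul_cancel, map_one]
  map_mul' a b := by
    have h : dgh F s * dgh F s⁻¹ = 1 := by rw [← map_mul, mul_inv_cancel, map_one]
    calc dgh F s⁻¹ * (a * b) * dgh F s = dgh F s⁻¹ * a * 1 * b * dgh F s := by
          simp only [mul_one, mul_assoc]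
      _ = _ := by rw [← h]; simp only [mul_assoc]
  map_zero' := by simp
  map_add' a b := by rw [mul_add, add_mul]
  commutes' r := by
    have h : dgh F s⁻¹ * dgh F s = 1 := by rw [← map_mul, inv_mul_cancel, map_one]
    rw [← Algebra.commutes, mul_assoc, h, mul_one]

theorem cj_apply (s : Δ) (a : Matrix (Fin 2) (Fin 2) (MonoidAlgebra F Δ)) :
    cj F s a = dgh F s⁻¹ * a * dgh F s := rfl

theorem cj_entry (s : Δ) (a : Matrix (Fin 2) (Fin 2) (MonoidAlgebra F Δ)) (i j : Fin 2) :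
    cj F s a i j = (![1, MonoidAlgebra.of F Δ s⁻¹] : Fin 2 → MonoidAlgebra F Δ) i * a i j *
      (![1, MonoidAlgebra.of F Δ s] : Fin 2 → MonoidAlgebra F Δ) j := by
  rw [cj_apply]
  change (Matrix.diagonal ![1, MonoidAlgebra.of F Δ s⁻¹] * a *
    Matrix.diagonal ![1, MonoidAlgebra.of F Δ s] : Matrix (Fin 2) (Fin 2) _) i j = _
  rw [Matrix.mul_diagonal, Matrix.diagonal_mul]

variable {F}
variable {m : ℕ} (g : Fin m → Δ)

variable (F) in
/-- the generators of the algebra -/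
def gens : Fin (m + 2) → Matrix (Fin 2) (Fin 2) (MonoidAlgebra F Δ) :=
  Fin.cons (Matrix.single 0 0 1) (Fin.cons (Matrix.single 0 1 1)
    fun i => Matrix.single 0 0 (MonoidAlgebra.of F Δ (g i)))

variable (F) in
/-- the algebra -/
def R0 : Subalgebra F (Matrix (Fin 2) (Fin 2) (MonoidAlgebra F Δ)) :=
  Algebra.adjoin F (Set.range (gens F g))

theorem mem_R0 (i : Fin (m + 2)) : gens F g i ∈ R0 F g := Algebra.subset_adjoin ⟨i, rfl⟩

theorem e00_mem : (Matrix.single 0 0 1 : Matrix (Fin 2) (Fin 2) (MonoidAlgebra F Δ)) ∈ R0 F g :=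
  mem_R0 g 0

theorem e01_mem : (Matrix.single 0 1 1 : Matrix (Fin 2) (Fin 2) (MonoidAlgebra F Δ)) ∈ R0 F g :=
  mem_R0 g 1

theorem eg_mem (i : Fin m) : (Matrix.single 0 0 (MonoidAlgebra.of F Δ (g i)) :
    Matrix (Fin 2) (Fin 2) (MonoidAlgebra F Δ)) ∈ R0 F g :=
  mem_R0 g i.succ.succ

theorem cj_mem (i : Fin m) {a : Matrix (Fin 2) (Fin 2) (MonoidAlgebra F Δ)} (ha : a ∈ R0 F g) :
    cj F (g i) a ∈ R0 F g := by
  have h1 : R0 F g ≤ (R0 F g).comap (cj F (g i)) := by
    refine Algebra.adjoin_le ?_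
    rintro _ ⟨n, rfl⟩
    rw [SetLike.mem_coe, Subalgebra.mem_comap]
    refine Fin.cases ?_ (fun n => ?_) n
    · have : cj F (g i) (gens F g 0) = Matrix.single 0 0 1 := by
        ext a b : 1
        rw [cj_entry]
        change _ * (Matrix.single 0 0 1 : Matrix (Fin 2) (Fin 2) (MonoidAlgebra F Δ)) a b * _ = _
        fin_cases a <;> fin_cases b <;> simp [Matrix.single]
      rw [this]
      exact e00_mem g
    refine Fin.cases ?_ (fun n => ?_) n
    · have : cj F (g i) (gens F g (Fin.succ 0)) =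
          Matrix.single 0 0 (MonoidAlgebra.of F Δ (g i)) * Matrix.single 0 1 1 := by
        rw [Matrix.single_mul_single_same, mul_one]
        ext a b : 1
        rw [cj_entry]
        change _ * (Matrix.single 0 1 1 : Matrix (Fin 2) (Fin 2) (MonoidAlgebra F Δ)) a b * _ = _
        fin_cases a <;> fin_cases b <;> simp [Matrix.single]
      rw [this]
      exact mul_mem (eg_mem g i) (e01_mem g)
    · have : cj F (g i) (gens F g (Fin.succ (Fin.succ n))) =
          Matrix.single 0 0 (MonoidAlgebra.of F Δ (g n)) := by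
        ext a b : 1
        rw [cj_entry]
        change _ * (Matrix.single 0 0 (MonoidAlgebra.of F Δ (g n)) :
          Matrix (Fin 2) (Fin 2) (MonoidAlgebra F Δ)) a b * _ = _
        fin_cases a <;> fin_cases b <;> simp [Matrix.single]
      rw [this]
      exact eg_mem g n
  exact h1 ha

variable (F) in
/-- the algebra of the elements supported in the submonoid -/
def SA : Subalgebra F (MonoidAlgebra F Δ) :=
  Algebra.adjoin F (MonoidAlgebra.of F Δ '' Set.range g)

theorem mem_of_mem_SA {d : Δ} (h : MonoidAlgebra.of F Δ d ∈ SA F g) :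
    d ∈ Submonoid.closure (Set.range g) := by
  rw [SA, ← Subalgebra.mem_toSubmodule, Algebra.adjoin_eq_span] at h
  exact MonoidAlgebra.mem_closure_of_mem_span_closure h

variable (F) in
/-- the upper triangular matrices -/
def UT : Subalgebra F (Matrix (Fin 2) (Fin 2) (MonoidAlgebra F Δ)) where
  carrier := {x | x 0 0 ∈ SA F g ∧ x 0 1 ∈ SA F g ∧ x 1 0 = 0 ∧
    x 1 1 ∈ (⊥ : Subalgebra F (MonoidAlgebra F Δ))}
  mul_mem' := by
    rintro a b ⟨a1, a2, a3, a4⟩ ⟨b1, b2, b3, b4⟩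
    have hb : b 1 1 ∈ SA F g := (bot_le : (⊥ : Subalgebra F (MonoidAlgebra F Δ)) ≤ SA F g) b4
    refine ⟨?_, ?_, ?_, ?_⟩
    · rw [Matrix.mul_apply, Fin.sum_univ_two]
      exact add_mem (mul_mem a1 b1) (by rw [b3, mul_zero]; exact zero_mem _)
    · rw [Matrix.mul_apply, Fin.sum_univ_two]
      exact add_mem (mul_mem a1 b2) (mul_mem a2 hb)
    · rw [Matrix.mul_apply, Fin.sum_univ_two, a3, b3, zero_mul, mul_zero, add_zero]
    · rw [Matrix.mul_apply, Fin.sum_univ_two, a3, zero_mul, zero_add]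
      exact mul_mem a4 b4
  add_mem' := by
    rintro a b ⟨a1, a2, a3, a4⟩ ⟨b1, b2, b3, b4⟩
    refine ⟨add_mem a1 b1, add_mem a2 b2, ?_, add_mem a4 b4⟩
    rw [Matrix.add_apply, a3, b3, add_zero]
  algebraMap_mem' r := by
    refine ⟨?_, ?_, ?_, ?_⟩
    · rw [Matrix.algebraMap_matrix_apply, if_pos rfl]
      exact Subalgebra.algebraMap_mem _ r
    · rw [Matrix.algebraMap_matrix_apply, if_neg (by decide)]
      exact zero_mem _
    · rw [Matrix.algebraMap_matrix_apply, if_neg (by decide)]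
    · rw [Matrix.algebraMap_matrix_apply, if_pos rfl]
      exact Subalgebra.algebraMap_mem _ r

theorem R0_le : R0 F g ≤ UT F g := by
  refine Algebra.adjoin_le ?_
  rintro _ ⟨n, rfl⟩
  rw [SetLike.mem_coe]
  refine Fin.cases ?_ (fun n => ?_) n
  · change (Matrix.single 0 0 1 : Matrix (Fin 2) (Fin 2) (MonoidAlgebra F Δ)) ∈ _
    refine ⟨?_, ?_, ?_, ?_⟩
    · simp [Matrix.single]
    · simp [Matrix.single]
    · simp [Matrix.single]
    · simp [Matrix.single]
  refine Fin.cases ?_ (fun n => ?_) n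
  · change (Matrix.single 0 1 1 : Matrix (Fin 2) (Fin 2) (MonoidAlgebra F Δ)) ∈ _
    refine ⟨?_, ?_, ?_, ?_⟩
    · simp [Matrix.single]
    · simp [Matrix.single]
    · simp [Matrix.single]
    · simp [Matrix.single]
  · change (Matrix.single 0 0 (MonoidAlgebra.of F Δ (g n)) :
      Matrix (Fin 2) (Fin 2) (MonoidAlgebra F Δ)) ∈ _
    have hm : MonoidAlgebra.of F Δ (g n) ∈ SA F g :=
      Algebra.subset_adjoin (Set.mem_image_of_mem _ ⟨n, rfl⟩)
    refine ⟨?_, ?_, ?_, ?_⟩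
    · rw [Matrix.single_apply_same]
      exact hm
    · rw [Matrix.single_apply_of_ne _ _ _ _ _ (by simp)]
      exact zero_mem _
    · rw [Matrix.single_apply_of_ne _ _ _ _ _ (by simp)]
    · rw [Matrix.single_apply_of_ne _ _ _ _ _ (by simp)]
      exact zero_mem _

variable (F) in
/-- the inclusion -/
def phi : (Matrix (Fin 3) (Fin 3) (R0 F g))ˣ →* WW F Δ :=
  Units.map ((R0 F g).val.toRingHom.mapMatrix).toMonoidHom

theorem phi_entry (y : (Matrix (Fin 3) (Fin 3) (R0 F g))ˣ) (i j : Fin 3) :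
    (phi F g y).val i j = (y.val i j : Matrix (Fin 2) (Fin 2) (MonoidAlgebra F Δ)) := rfl

theorem phi_el (i j : Fin 3) (h : i ≠ j) (a : R0 F g) :
    phi F g (el i j h a) = el i j h (a : Matrix (Fin 2) (Fin 2) (MonoidAlgebra F Δ)) := by
  apply Units.ext
  ext p q : 1
  rw [phi_entry]
  change ((1 + Matrix.single i j a : Matrix (Fin 3) (Fin 3) (R0 F g)) p q :
    Matrix (Fin 2) (Fin 2) (MonoidAlgebra F Δ)) = (1 + Matrix.single i j _ : Matrix _ _ _) p q
  rw [Matrix.add_apply, Matrix.add_apply, Matrix.one_apply, Matrix.one_apply, Matrix.single_apply,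
    Matrix.single_apply]
  push_cast
  split_ifs <;> rfl

variable (F) in
/-- the subgroup `K` -/
def K0 : Subgroup (WW F Δ) := (E3 (R0 F g)).map (phi F g)

theorem el_mem_K0 (i j : Fin 3) (h : i ≠ j) {a : Matrix (Fin 2) (Fin 2) (MonoidAlgebra F Δ)}
    (ha : a ∈ R0 F g) : (el i j h a : WW F Δ) ∈ K0 F g :=
  ⟨el i j h ⟨a, ha⟩, Subgroup.subset_closure ⟨i, j, h, ⟨a, ha⟩, rfl⟩, phi_el g i j h ⟨a, ha⟩⟩

theorem conj_el (s : Δ) (i j : Fin 3) (h : i ≠ j)
    (a : Matrix (Fin 2) (Fin 2) (MonoidAlgebra F Δ)) :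
    (dg F s)⁻¹ * (el i j h a) * dg F s = el i j h (cj F s a) := by
  apply Units.ext
  rw [Units.val_mul, Units.val_mul, dg_inv_val, dg_val]
  ext p q : 1
  rw [Matrix.mul_diagonal, Matrix.diagonal_mul]
  change dgh F s⁻¹ * (1 + Matrix.single i j a : Matrix (Fin 3) (Fin 3) _) p q * dgh F s =
    (1 + Matrix.single i j (cj F s a) : Matrix (Fin 3) (Fin 3) _) p q
  rw [Matrix.add_apply, Matrix.add_apply, Matrix.one_apply, Matrix.single_apply,
    Matrix.single_apply]
  have h1 : dgh F s⁻¹ * dgh F s = 1 := by rw [← map_mul, inv_mul_cancel, map_one]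
  rw [mul_add, add_mul]
  congr 1
  · split_ifs
    · rw [mul_one, h1]
    · rw [mul_zero, zero_mul]
  · split_ifs
    · rfl
    · rw [mul_zero, zero_mul]

theorem conj_K0 (i : Fin m) {x : WW F Δ} (hx : x ∈ K0 F g) :
    (dg F (g i))⁻¹ * x * dg F (g i) ∈ K0 F g := by
  have h1 : E3 (R0 F g) ≤ (K0 F g).comap ((MulAut.conj (dg F (g i))⁻¹).toMonoidHom.comp
      (phi F g)) := by
    refine (Subgroup.closure_le _).2 ?_
    rintro _ ⟨p, q, h, a, rfl⟩
    change (dg F (g i))⁻¹ * phi F g (el p q h a) * ((dg F (g i))⁻¹)⁻¹ ∈ K0 F g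
    rw [inv_inv, phi_el, conj_el]
    exact el_mem_K0 g p q h (cj_mem g i a.2)
  obtain ⟨y, hy, rfl⟩ := hx
  have h2 := h1 hy
  change (dg F (g i))⁻¹ * phi F g y * ((dg F (g i))⁻¹)⁻¹ ∈ K0 F g at h2
  rwa [inv_inv] at h2

theorem hasT_K0 [Fintype F] (hTT : S_TT12) (hF : 256 ≤ Fintype.card F) (hm : m ≤ 10) :
    HasT (K0 F g) := by
  have h1 : HasT (E3 (R0 F g)) := by
    refine hTT F hF (R0 F g) (m + 2) (fun n => ⟨gens F g n, mem_R0 g n⟩) (by omega) ?_
    have h2 : (Set.range fun n => (⟨gens F g n, mem_R0 g n⟩ : R0 F g)) =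
        ((↑) : R0 F g → Matrix (Fin 2) (Fin 2) (MonoidAlgebra F Δ)) ⁻¹' (Set.range (gens F g)) := by
      ext x
      constructor
      · rintro ⟨n, rfl⟩
        exact ⟨n, rfl⟩
      · rintro ⟨n, hn⟩
        exact ⟨n, Subtype.ext hn⟩
    rw [h2]
    exact Algebra.adjoin_adjoin_coe_preimage
  exact hasT_surj h1 ((phi F g).subgroupMap (E3 (R0 F g))) ((phi F g).subgroupMap_surjective _)

theorem not_mem_K0 (i : Fin m) (hi : (g i)⁻¹ ∉ Submonoid.closure (Set.range g)) :
    dg F (g i) * el 0 1 (by decide) (Matrix.single 0 1 1) * (dg F (g i))⁻¹ ∉ K0 F g := by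
  intro h
  have e : dg F (g i) * el 0 1 (by decide) (Matrix.single 0 1 1) * (dg F (g i))⁻¹ =
      el 0 1 (by decide) (cj F (g i)⁻¹ (Matrix.single 0 1 1)) := by
    rw [← conj_el, map_inv, inv_inv]
  rw [e] at h
  obtain ⟨y, _, hy⟩ := h
  have h1 := congrArg (fun u : WW F Δ => u.val 0 1) hy
  beta_reduce at h1
  rw [phi_entry] at h1
  have h2 : (el 0 1 (by decide) (cj F (g i)⁻¹ (Matrix.single 0 1 1)) : WW F Δ).val 0 1 =
      cj F (g i)⁻¹ (Matrix.single 0 1 1) := by
    change (1 + Matrix.single 0 1 (cj F (g i)⁻¹ (Matrix.single 0 1 1)) :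
      Matrix (Fin 3) (Fin 3) _) 0 1 = _
    rw [Matrix.add_apply, Matrix.one_apply_ne (by decide), zero_add, Matrix.single_apply_same]
  rw [h2] at h1
  have h3 : cj F (g i)⁻¹ (Matrix.single 0 1 1) ∈ R0 F g := by
    rw [← h1]
    exact (y.val 0 1).2
  have h4 := (R0_le g h3).2.1
  rw [cj_entry, Matrix.single_apply_same] at h4
  have h5 : MonoidAlgebra.of F Δ (g i)⁻¹ ∈ SA F g := by simpa using h4
  exact hi (mem_of_mem_SA g h5)

theorem s_grp : S_GRP := by
  intro F Δ _ _ _ m g hTG hTT hF hm hΔ hRF hg hi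
  obtain ⟨i, hi⟩ := hi
  set Q0 : Subgroup (WW F Δ) := K0 F g ⊔ (dg F : Δ →* WW F Δ).range with hQ0
  have hKQ : K0 F g ≤ Q0 := le_sup_left
  have hDQ : (dg F : Δ →* WW F Δ).range ≤ Q0 := le_sup_right
  have tK : HasT ((K0 F g).subgroupOf Q0) := by
    have e := Subgroup.subgroupOfEquivOfLe hKQ
    exact hasT_surj (hasT_K0 g hTT hF hm) e.symm.toMonoidHom e.symm.surjective
  have tD : HasT ((dg F : Δ →* WW F Δ).range.subgroupOf Q0) := by
    have e := Subgroup.subgroupOfEquivOfLe hDQ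
    exact hasT_surj (hasT_surj hΔ _ (dg F).rangeRestrict_surjective) e.symm.toMonoidHom
      e.symm.surjective
  have hsup : (K0 F g).subgroupOf Q0 ⊔ (dg F : Δ →* WW F Δ).range.subgroupOf Q0 = ⊤ := by
    rw [← Subgroup.subgroupOf_sup hKQ hDQ, ← hQ0, Subgroup.subgroupOf_self]
  -- the elements `diag(1, s)` of `Q0`
  let dq : Δ →* Q0 := (dg F).codRestrict Q0 fun s => hDQ ⟨s, rfl⟩
  have hdq : ∀ n : Fin m, ∀ x ∈ (K0 F g).subgroupOf Q0,
      (dq (g n))⁻¹ * x * dq (g n) ∈ (K0 F g).subgroupOf Q0 := by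
    intro n x hx
    exact conj_K0 g n hx
  have hdD : (dg F : Δ →* WW F Δ).range.subgroupOf Q0 = dq.range := by
    ext x
    constructor
    · rintro ⟨s, hs⟩
      exact ⟨s, Subtype.ext hs⟩
    · rintro ⟨s, rfl⟩
      exact ⟨s, rfl⟩
  have hDgen : (dg F : Δ →* WW F Δ).range.subgroupOf Q0 =
      Subgroup.closure (Set.range fun n => dq (g n)) := by
    rw [hdD, MonoidHom.range_eq_map, ← hg, MonoidHom.map_closure, ← Set.range_comp]
    rfl
  have tQ : HasT Q0 := by
    refine hTG Q0 _ _ tK tD hsup ?_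
    conv_lhs => rw [hDgen]
    refine Subgroup.closure_mono ?_
    rintro _ ⟨n, rfl⟩
    exact ⟨⟨g n, rfl⟩, hdq n⟩
  refine ⟨Q0, inferInstance, (K0 F g).subgroupOf Q0, RF.sub hRF Q0, tQ, tK, ?_, ?_⟩
  · rw [eq_top_iff, ← hsup]
    refine sup_le (fun x hx => Subgroup.subset_closure fun y hy => ?_) ?_
    · exact mul_mem (mul_mem (inv_mem hx) hy) hx
    · rw [hDgen]
      refine Subgroup.closure_mono ?_
      rintro _ ⟨n, rfl⟩
      exact hdq n
  · refine ⟨dq (g i), ⟨el 0 1 (by decide) (Matrix.single 0 1 1),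
      hKQ (el_mem_K0 g 0 1 (by decide) (e01_mem g))⟩, el_mem_K0 g 0 1 (by decide) (e01_mem g),
      fun h => not_mem_K0 g i hi h⟩

end

end Pool.Agent.Helper8.CK
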