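import Pool.Agent.Helper3.CK.Stm2
import Pool.Graph.R_pool_sql_team_seeded_63374d34.N44.HL.H

/-!
# CK, module CONS: consequences of the closure theorem
-/

set_option autoImplicit false

namespace Pool.Agent.Helper8.CK

open Pool.Agent.W661.RC (HasT)
open Pool.Agent.H21R2 (IsHyperlinear)
open Pool.Agent.Helper3.CK

variable {Q : Type} [Group Q] (K : Subgroup Q)

/-- the lamp at the coset `K` -/
noncomputable def lamp : Lamp K := Multiplicative.ofAdd (Finsupp.single (QuotientGroup.mk 1 : Q ⧸ K) 1)

theorem act_lamp (y : Q) : lampAct K y (lamp K) =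
    Multiplicative.ofAdd (Finsupp.single (QuotientGroup.mk y : Q ⧸ K) 1) := by
  change Multiplicative.ofAdd (Finsupp.domCongr (MulAction.toPerm y)
    (Finsupp.single (QuotientGroup.mk 1 : Q ⧸ K) (1 : ZMod 2))) = _
  rw [Finsupp.domCongr_apply, Finsupp.equivMapDomain_single]
  congr 2
  change y • (QuotientGroup.mk 1 : Q ⧸ K) = QuotientGroup.mk y
  rw [MulAction.Quotient.smul_mk, smul_eq_mul, mul_one]

theorem act_lamp_iff (y : Q) : lampAct K y (lamp K) = lamp K ↔ y ∈ K := by
  rw [act_lamp, lamp]
  constructor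
  · intro h
    have h1 : Finsupp.single (QuotientGroup.mk y : Q ⧸ K) (1 : ZMod 2) =
        Finsupp.single (QuotientGroup.mk 1 : Q ⧸ K) 1 := Multiplicative.ofAdd.injective h
    have h2 : (QuotientGroup.mk y : Q ⧸ K) = QuotientGroup.mk 1 :=
      Finsupp.single_left_injective one_ne_zero h1
    rw [QuotientGroup.eq] at h2
    simpa using h2
  · intro h
    have h2 : (QuotientGroup.mk y : Q ⧸ K) = QuotientGroup.mk 1 := by
      rw [QuotientGroup.eq]
      simpa using h
    rw [h2]

theorem lamp_comm (y : Q) : (SemidirectProduct.inl (lamp K) : Wr K) * SemidirectProduct.inr y =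
    SemidirectProduct.inr y * SemidirectProduct.inl (lamp K) ↔ y ∈ K := by
  rw [← act_lamp_iff]
  constructor
  · intro h
    have h1 := congrArg SemidirectProduct.left h
    simp only [SemidirectProduct.mul_left, SemidirectProduct.left_inl, SemidirectProduct.right_inl,
      SemidirectProduct.left_inr, SemidirectProduct.right_inr, map_one, one_mul, mul_one] at h1
    exact h1.symm
  · intro h
    ext1
    · simp only [SemidirectProduct.mul_left, SemidirectProduct.left_inl,
        SemidirectProduct.right_inl, SemidirectProduct.left_inr, SemidirectProduct.right_inr,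
        map_one, one_mul, mul_one]
      exact h.symm
    · simp

theorem not_hyp_wr (hc : S_CLOS) (hP : Pair Q K) : ¬ IsHyperlinear (Wr K) := by
  intro h
  obtain ⟨q, x, hx, hq⟩ := hP.ne
  have := hc (Wr K) Q SemidirectProduct.inr K h hP.tQ hP.tK hP.gen
    (SemidirectProduct.inl (lamp K)) (fun y hy => (lamp_comm K y).2 hy) q x hx
  exact hq ((lamp_comm K _).1 this)

theorem not_hyp_hnn (hc : S_CLOS) (hP : Pair Q K) :
    ¬ IsHyperlinear (HNNExtension Q K K (MulEquiv.refl K)) := by
  intro h
  obtain ⟨q, x, hx, hq⟩ := hP.ne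
  let f : HNNExtension Q K K (MulEquiv.refl K) →* Wr K :=
    HNNExtension.lift SemidirectProduct.inr (SemidirectProduct.inl (lamp K))
      fun a => (lamp_comm K _).2 a.2
  have h1 := hc (HNNExtension Q K K (MulEquiv.refl K)) Q HNNExtension.of K h hP.tQ hP.tK hP.gen
    HNNExtension.t (fun y hy => HNNExtension.t_mul_of ⟨y, hy⟩) q x hx
  have ft : f HNNExtension.t = SemidirectProduct.inl (lamp K) := HNNExtension.lift_t _ _ _
  have fo : ∀ y : Q, f (HNNExtension.of y) = SemidirectProduct.inr y :=
    fun y => HNNExtension.lift_of _ _ _ y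
  have h2 : f (HNNExtension.t * HNNExtension.of (q * x * q⁻¹)) =
      f (HNNExtension.of (q * x * q⁻¹) * HNNExtension.t) := congrArg f h1
  rw [f.map_mul, f.map_mul, ft, fo] at h2
  exact hq ((lamp_comm K _).1 h2)

theorem s_cons : S_CONS := by
  intro Q _ K hc hP
  refine ⟨not_hyp_wr K hc hP, not_hyp_hnn K hc hP, fun h => not_hyp_hnn K hc hP ?_⟩
  exact ((Pool.Agent.N44.HL.closed_tfae6 K).out 2 3).1 h

end Pool.Agent.Helper8.CK
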