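import Pool.Agent.Helper3.CK.Stm2

/-!
# CK, module RF: residual finiteness
-/

set_option autoImplicit false

namespace Pool.Agent.Helper8.CK

open Pool.Agent.Helper3.CK
open Pool.Agent.N44.NS (E3 el)

/-- residually finite rings -/
def RFR (R : Type) [Ring R] : Prop :=
  ∀ z : R, z ≠ 0 → ∃ (S : Type) (_ : Ring S) (_ : Finite S) (f : R →+* S), f z ≠ 0

theorem RFR.mat {R : Type} [Ring R] (h : RFR R) (n : ℕ) : RFR (Matrix (Fin n) (Fin n) R) := by
  intro z hz
  have : ∃ i j, z i j ≠ 0 := by
    by_contra hcon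
    push Not at hcon
    exact hz (Matrix.ext hcon)
  obtain ⟨i, j, hij⟩ := this
  obtain ⟨S, _, _, f, hf⟩ := h _ hij
  refine ⟨Matrix (Fin n) (Fin n) S, inferInstance, inferInstance, f.mapMatrix, fun h0 => hf ?_⟩
  have := congrFun (congrFun h0 i) j
  simpa using this

theorem RFR.units {R : Type} [Ring R] (h : RFR R) : RF Rˣ := by
  intro u hu
  have h1 : (u : R) - 1 ≠ 0 := fun h0 => hu (Units.ext (sub_eq_zero.1 h0))
  obtain ⟨S, _, _, f, hf⟩ := h _ h1
  refine ⟨Sˣ, inferInstance, inferInstance, Units.map f.toMonoidHom, fun h0 => hf ?_⟩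
  have h2 := congrArg Units.val h0
  have h3 : f (u : R) = 1 := h2
  rw [map_sub, h3, map_one, sub_self]

theorem RF.sub {G : Type} [Group G] (h : RF G) (K : Subgroup G) : RF K := by
  intro g hg
  obtain ⟨H, _, _, f, hf⟩ := h (g : G) (fun h0 => hg (Subtype.ext h0))
  exact ⟨H, inferInstance, inferInstance, f.comp K.subtype, hf⟩

theorem rfr_poly (F : Type) [Field F] [Finite F] : RFR (Polynomial F) := by
  intro z hz
  set q : Polynomial F := Polynomial.X ^ (z.natDegree + 1) with hq
  have hm : q.Monic := Polynomial.monic_X_pow _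
  have hfin : Module.Finite F (AdjoinRoot q) := hm.finite_adjoinRoot
  refine ⟨AdjoinRoot q, inferInstance, Module.finite_of_finite F, AdjoinRoot.mk q, fun h0 => ?_⟩
  rw [AdjoinRoot.mk_eq_zero] at h0
  have h1 := Polynomial.natDegree_le_of_dvd h0 hz
  rw [hq, Polynomial.natDegree_X_pow] at h1
  omega

theorem rfr_monoidAlgebra (F Δ : Type) [Field F] [Finite F] [Group Δ] (h : RF Δ) :
    RFR (MonoidAlgebra F Δ) := by
  classical
  intro z hz
  have hz' : z.coeff ≠ 0 := fun h0 => hz (MonoidAlgebra.coeff_injective (by simpa using h0))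
  obtain ⟨d0, hd0⟩ := Finsupp.support_nonempty_iff.2 hz'
  -- finite quotients which separate the points of the support from `d0`
  have key : ∀ d : Δ, ∃ (H : Type) (_ : Group H) (_ : Finite H) (f : Δ →* H),
      d ≠ d0 → f d ≠ f d0 := by
    intro d
    by_cases hd : d = d0
    · exact ⟨Unit, inferInstance, inferInstance, 1, fun h => absurd hd h⟩
    · obtain ⟨H, _, _, f, hf⟩ := h (d * d0⁻¹) (fun h0 => hd (mul_inv_eq_one.1 h0))
      refine ⟨H, inferInstance, inferInstance, f, fun _ h1 => hf ?_⟩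
      rw [map_mul, map_inv, h1, mul_inv_cancel]
  choose H hG hF f hf using key
  let f' : Δ →* (∀ d : z.coeff.support, H d) := MonoidHom.mk' (fun x d => f d x) (by
    intro a b
    ext d
    simp)
  have hsep : ∀ d ∈ z.coeff.support, d ≠ d0 → f' d ≠ f' d0 := fun d hd hne h0 =>
    hf d hne (congrFun h0 ⟨d, hd⟩)
  have hfin : Finite (MonoidAlgebra F (∀ d : z.coeff.support, H d)) :=
    Finite.of_injective (fun x : MonoidAlgebra F (∀ d : z.coeff.support, H d) => (x.coeff : _ → F))
      fun x y hxy => MonoidAlgebra.coeff_injective (DFunLike.coe_injective hxy)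
  refine ⟨MonoidAlgebra F (∀ d : z.coeff.support, H d), inferInstance, hfin,
    MonoidAlgebra.mapDomainRingHom F f', fun h0 => ?_⟩
  have h1 : (Finsupp.mapDomain f' z.coeff) (f' d0) = 0 := by
    have := congrArg (fun x => x.coeff (f' d0)) h0
    simpa using this
  rw [Finsupp.mapDomain, Finsupp.sum_apply, Finsupp.sum, Finset.sum_eq_single d0] at h1
  · rw [Finsupp.single_eq_same] at h1
    exact (Finsupp.mem_support_iff.1 hd0) h1
  · intro d hd hne
    exact Finsupp.single_eq_of_ne' (hsep d hd hne)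
  · intro h2
    exact absurd hd0 h2

theorem s_rf1 : S_RF1 :=
  RF.sub (((rfr_poly (ZMod 257)).mat 3).units) _

theorem s_rf2 : S_RF2 := fun F Δ _ _ _ h => (((rfr_monoidAlgebra F Δ h).mat 2).mat 3).units

end Pool.Agent.Helper8.CK
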